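import Mathlib

set_option autoImplicit false

/-!
# `κ`-octahedral spaces without uncountable `ℓ₁(Γ)`

For every infinite cardinal `κ` the `ℓ₁`-sum `X` of the reflexive spaces `ℓ_p(κ⁺)`, `p = 1 + 1 / (n + 1)`, is
`κ`-octahedral: a unit vector of `ℓ_p(κ⁺)` at a coordinate outside the supports of the elements of `Y` works,
with `(|a|^p + |b|^p)^(1/p) ≥ 2^(1/p - 1) (|a| + |b|)`. An isomorphic copy of `ℓ₁(Γ)`, `Γ` uncountable, would give
an infinite `ℓ₁`-sequence in a finite sum of these spaces, which is impossible by the inequality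
`|a + b|^p + |a - b|^p ≤ 2 (|a|^p + |b|^p)`.
-/

open scoped ENNReal
open Cardinal

namespace Pool.Agent.Results.MP_814c9d_an.NoCopyOfEllOne

universe u v

/-- `κ`-octahedral normed spaces. -/
def KOctahedral (κ : Cardinal.{u}) (X : Type u) [NormedAddCommGroup X] [NormedSpace ℝ X] : Prop :=
  ∀ ε : ℝ, 0 < ε → ∀ Y : Submodule ℝ X,
    (∃ D : Set X, D ⊆ (Y : Set X) ∧ #D ≤ κ ∧ (Y : Set X) ⊆ closure D) →
      ∃ x : X, ‖x‖ = 1 ∧ ∀ (r : ℝ) (y : X), y ∈ Y → (1 - ε) * (|r| + ‖y‖) ≤ ‖r • x + y‖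

/-- `X` has a subspace isomorphic to `ℓ₁(Γ)`. -/
def ContainsEllOne (Γ : Type v) (X : Type u) [NormedAddCommGroup X] [NormedSpace ℝ X] : Prop :=
  ∃ T : lp (fun _ : Γ => ℝ) 1 →L[ℝ] X, ∃ c : ℝ, 0 < c ∧ ∀ z, c * ‖z‖ ≤ ‖T z‖

/-! ### Scalar inequalities -/

lemma scalar_ineq (a b : ℝ) {p : ℝ} (h1 : 1 ≤ p) (h2 : p ≤ 2) :
    |a + b| ^ p + |a - b| ^ p ≤ 2 * (|a| ^ p + |b| ^ p) := by
  have hq0 : 0 ≤ p / 2 := by linarith
  have hq1 : p / 2 ≤ 1 := by linarith
  have key : ∀ x : ℝ, |x| ^ p = (x ^ 2) ^ (p / 2) := by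
    intro x
    rw [← sq_abs x, ← Real.rpow_natCast, ← Real.rpow_mul (abs_nonneg x)]
    congr 1
    push_cast
    ring
  have hc := (Real.concaveOn_rpow hq0 hq1).2 (show ((a + b) ^ 2) ∈ Set.Ici (0 : ℝ) from sq_nonneg (a + b))
    (show ((a - b) ^ 2) ∈ Set.Ici (0 : ℝ) from sq_nonneg (a - b)) (show (0 : ℝ) ≤ 1 / 2 by norm_num)
    (show (0 : ℝ) ≤ 1 / 2 by norm_num) (by norm_num)
  simp only [smul_eq_mul] at hc
  have e : 1 / 2 * (a + b) ^ 2 + 1 / 2 * (a - b) ^ 2 = a ^ 2 + b ^ 2 := by ring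
  rw [e] at hc
  have h3 := Real.rpow_add_le_add_rpow (sq_nonneg a) (sq_nonneg b) hq0 hq1
  rw [key, key, key, key]
  linarith

lemma two_rpow_ineq {a b p : ℝ} (ha : 0 ≤ a) (hb : 0 ≤ b) (h1 : 1 ≤ p) :
    (2 : ℝ) ^ (1 / p - 1) * (a + b) ≤ (a ^ p + b ^ p) ^ (1 / p) := by
  have hp0 : 0 < p := by linarith
  have h := NNReal.rpow_add_le_mul_rpow_add_rpow ⟨a, ha⟩ ⟨b, hb⟩ h1
  have h' : (a + b) ^ p ≤ (2 : ℝ) ^ (p - 1) * (a ^ p + b ^ p) := by exact_mod_cast h
  have h2 : (2 : ℝ) ^ (1 - p) * (a + b) ^ p ≤ a ^ p + b ^ p := by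
    have : (2 : ℝ) ^ (1 - p) * (2 : ℝ) ^ (p - 1) = 1 := by
      rw [← Real.rpow_add (by norm_num)]; simp
    calc (2 : ℝ) ^ (1 - p) * (a + b) ^ p ≤ (2 : ℝ) ^ (1 - p) * ((2 : ℝ) ^ (p - 1) * (a ^ p + b ^ p)) := by
          gcongr
      _ = a ^ p + b ^ p := by rw [← mul_assoc, this, one_mul]
  have h3 := Real.rpow_le_rpow (by positivity) h2 (show 0 ≤ 1 / p by positivity)
  rw [Real.mul_rpow (by positivity) (by positivity), ← Real.rpow_mul (by norm_num),
    ← Real.rpow_mul (by positivity)] at h3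
  have e1 : (1 - p) * (1 / p) = 1 / p - 1 := by field_simp
  have e2 : p * (1 / p) = 1 := by field_simp
  rwa [e1, e2, Real.rpow_one] at h3

/-! ### The spaces `ℓ_p(J)` -/

section lp

variable {J : Type u} {p : ℝ≥0∞}

lemma clarkson (h1 : 1 ≤ p.toReal) (h2 : p.toReal ≤ 2) (f g : lp (fun _ : J => ℝ) p) :
    ‖f + g‖ ^ p.toReal + ‖f - g‖ ^ p.toReal ≤ 2 * (‖f‖ ^ p.toReal + ‖g‖ ^ p.toReal) := by
  have hp : 0 < p.toReal := by linarith
  have s1 := lp.hasSum_norm hp (f + g)
  have s2 := lp.hasSum_norm hp (f - g)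
  have s3 := lp.hasSum_norm hp f
  have s4 := lp.hasSum_norm hp g
  refine hasSum_le (fun i => ?_) (s1.add s2) ((s3.add s4).mul_left 2)
  simp only [lp.coeFn_add, lp.coeFn_sub, Pi.add_apply, Pi.sub_apply, Real.norm_eq_abs]
  exact scalar_ineq _ _ h1 h2

lemma norm_single_add {J : Type v} [DecidableEq J] (h1 : 1 ≤ p.toReal) (j : J) (r : ℝ)
    (f : lp (fun _ : J => ℝ) p) (hf : f j = 0) :
    ‖r • lp.single p j (1 : ℝ) + f‖ ^ p.toReal = |r| ^ p.toReal + ‖f‖ ^ p.toReal := by
  have hp : 0 < p.toReal := by linarith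
  have s1 := lp.hasSum_norm hp (r • lp.single p j (1 : ℝ) + f)
  have s3 := lp.hasSum_norm hp f
  have s5 : HasSum (fun i => if i = j then |r| ^ p.toReal else 0) (|r| ^ p.toReal) :=
    hasSum_ite_eq j _
  refine s1.unique ?_
  convert s5.add s3 using 2 with i
  rw [lp.coeFn_add, lp.coeFn_smul, Pi.add_apply, Pi.smul_apply, lp.single_apply]
  by_cases h : i = j
  · subst h
    simp [hf, Real.zero_rpow hp.ne']
  · simp [h]

end lp

/-- The exponents `1 + 1 / (n + 1)`. -/
noncomputable def ex (n : ℕ) : ℝ≥0∞ := ENNReal.ofReal (1 + 1 / ((n : ℝ) + 1))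

lemma ex_toReal (n : ℕ) : (ex n).toReal = 1 + 1 / ((n : ℝ) + 1) :=
  ENNReal.toReal_ofReal (by positivity)

lemma one_le_ex (n : ℕ) : 1 ≤ (ex n).toReal := by
  rw [ex_toReal]
  have : 0 ≤ 1 / ((n : ℝ) + 1) := by positivity
  linarith

lemma one_lt_ex (n : ℕ) : 1 < (ex n).toReal := by
  rw [ex_toReal]
  have : 0 < 1 / ((n : ℝ) + 1) := by positivity
  linarith

lemma ex_le_two (n : ℕ) : (ex n).toReal ≤ 2 := by
  rw [ex_toReal]
  have : 1 / ((n : ℝ) + 1) ≤ 1 := by
    rw [div_le_one (by positivity)]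
    have : (0 : ℝ) ≤ n := Nat.cast_nonneg n
    linarith
  linarith

instance (n : ℕ) : Fact (1 ≤ ex n) := ⟨by
  rw [ex, ← ENNReal.ofReal_one]
  apply ENNReal.ofReal_le_ofReal
  have : 0 ≤ 1 / ((n : ℝ) + 1) := by positivity
  linarith⟩

/-- The space `ℓ_p(J)`, `p = 1 + 1 / (n + 1)`. -/
noncomputable abbrev E (J : Type u) (n : ℕ) := lp (fun _ : J => ℝ) (ex n)

/-- The `ℓ₁`-sum of these spaces. -/
noncomputable abbrev Sp (J : Type u) := lp (fun n : ℕ => E J n) 1

section Sp

variable {J : Type u}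

lemma hasSum_Sp (x : Sp J) : HasSum (fun n => ‖x n‖) ‖x‖ := by
  have := lp.hasSum_norm (p := 1) (by simp) x
  simpa using this

lemma exists_notMem {κ : Cardinal.{u}} (hκ : ℵ₀ ≤ κ) (hJ : κ < #J) {ι : Type u} (hι : #ι ≤ κ)
    (S : ι → Set J) (hS : ∀ i, (S i).Countable) : ∃ j : J, ∀ i, j ∉ S i := by
  have hcard : #(⋃ i, S i : Set J) < #J := by
    refine lt_of_le_of_lt ?_ hJ
    refine (Cardinal.mk_iUnion_le _).trans ?_
    refine (mul_le_mul' hι (ciSup_le' (a := κ) fun i => (Cardinal.le_aleph0_iff_set_countable.mpr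
      (hS i)).trans hκ)).trans ?_
    exact (Cardinal.mul_eq_self hκ).le
  by_contra hcon
  push Not at hcon
  have : (⋃ i, S i : Set J) = Set.univ := by
    ext j
    simpa using hcon j
  rw [this, Cardinal.mk_univ] at hcard
  exact lt_irrefl _ hcard

lemma countable_support_E (n : ℕ) (f : E J n) : (Function.support (f : J → ℝ)).Countable := by
  have h := (lp.hasSum_norm (show 0 < (ex n).toReal by linarith [one_le_ex n]) f).summable
  refine h.countable_support.mono fun j hj => ?_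
  rw [Function.mem_support] at hj ⊢
  exact (Real.rpow_pos_of_pos (norm_pos_iff.mpr hj) _).ne'

lemma octahedral (κ : Cardinal.{u}) (hκ : ℵ₀ ≤ κ) (hJ : κ < #J) : KOctahedral κ (Sp J) := by
  classical
  intro ε hε Y ⟨D, hDY, hD, hYD⟩
  -- choose the exponent
  have hlim : Filter.Tendsto (fun n : ℕ => (2 : ℝ) ^ (1 / (ex n).toReal - 1)) Filter.atTop (nhds 1) := by
    have h1 : Filter.Tendsto (fun n : ℕ => (ex n).toReal) Filter.atTop (nhds 1) := by
      simp only [ex_toReal]
      have := tendsto_one_div_add_atTop_nhds_zero_nat (𝕜 := ℝ)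
      simpa using this.const_add 1
    have h2 : Filter.Tendsto (fun n : ℕ => 1 / (ex n).toReal - 1) Filter.atTop (nhds 0) := by
      have := (h1.inv₀ one_ne_zero).sub_const 1
      simpa using this
    have h3 : Continuous fun t : ℝ => (2 : ℝ) ^ t := Real.continuous_const_rpow (by norm_num)
    have h4 := (h3.tendsto 0).comp h2
    rw [Real.rpow_zero] at h4
    exact h4
  obtain ⟨n, hn⟩ := (hlim.eventually (lt_mem_nhds (show 1 - ε < 1 by linarith))).exists
  -- choose the coordinate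
  obtain ⟨j, hj⟩ := exists_notMem hκ hJ hD (fun d : D => Function.support ((d : Sp J) n : J → ℝ))
    (fun d => countable_support_E n ((d : Sp J) n))
  have hjD : ∀ d ∈ D, (d n : J → ℝ) j = 0 := by
    intro d hd
    by_contra h
    exact hj ⟨d, hd⟩ h
  have hjY : ∀ y ∈ Y, (y n : J → ℝ) j = 0 := by
    intro y hy
    have hcont : Continuous fun z : Sp J => (z n : J → ℝ) j := by
      refine LipschitzWith.continuous (K := 1) (LipschitzWith.of_dist_le_mul fun z w => ?_)
      rw [dist_eq_norm, dist_eq_norm, NNReal.coe_one, one_mul]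
      have h1 : ‖(z n : J → ℝ) j - (w n : J → ℝ) j‖ ≤ ‖(z - w) n‖ := by
        have := lp.norm_apply_le_norm (show ex n ≠ 0 from (zero_lt_one.trans_le Fact.out).ne')
          ((z - w) n) j
        simpa using this
      exact h1.trans (lp.norm_apply_le_norm one_ne_zero (z - w) n)
    have hcl : IsClosed {z : Sp J | (z n : J → ℝ) j = 0} := isClosed_eq hcont continuous_const
    exact (closure_minimal (fun d hd => hjD d hd) hcl) (hYD hy)
  refine ⟨lp.single 1 n (lp.single (ex n) j (1 : ℝ)), ?_, fun r y hy => ?_⟩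
  · rw [lp.norm_single one_pos, lp.norm_single (zero_lt_one.trans_le Fact.out)]
    simp
  · have s1 := hasSum_Sp (r • lp.single 1 n (lp.single (ex n) j (1 : ℝ)) + y)
    have s2 := hasSum_Sp y
    have s3 : HasSum (fun m => if m = n then ‖r • lp.single (ex n) j (1 : ℝ) + y n‖ - ‖y n‖ else 0)
        (‖r • lp.single (ex n) j (1 : ℝ) + y n‖ - ‖y n‖) := hasSum_ite_eq n _
    have e1 : ‖r • lp.single 1 n (lp.single (ex n) j (1 : ℝ)) + y‖ =
        ‖r • lp.single (ex n) j (1 : ℝ) + y n‖ - ‖y n‖ + ‖y‖ := by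
      refine s1.unique ?_
      convert s3.add s2 using 2 with m
      rw [lp.coeFn_add, lp.coeFn_smul, Pi.add_apply, Pi.smul_apply, lp.single_apply]
      by_cases h : m = n
      · subst h
        simp
      · simp [h]
    have e2 := norm_single_add (one_le_ex n) j r (y n) (hjY y hy)
    have hp : 0 < (ex n).toReal := by linarith [one_le_ex n]
    have e3 : ‖r • lp.single (ex n) j (1 : ℝ) + y n‖ =
        (|r| ^ (ex n).toReal + ‖y n‖ ^ (ex n).toReal) ^ (1 / (ex n).toReal) := by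
      rw [← e2, ← Real.rpow_mul (norm_nonneg _), mul_one_div_cancel hp.ne', Real.rpow_one]
    have e4 := two_rpow_ineq (abs_nonneg r) (norm_nonneg (y n)) (one_le_ex n)
    rw [← e3] at e4
    have e5 : (1 - ε) * (|r| + ‖y n‖) ≤ ‖r • lp.single (ex n) j (1 : ℝ) + y n‖ :=
      (mul_le_mul_of_nonneg_right hn.le (by positivity)).trans e4
    have e6 : ‖y n‖ ≤ ‖y‖ := lp.norm_apply_le_norm one_ne_zero y n
    rw [e1]
    nlinarith

/-- The sum of the norms of the coordinates from `N` on. -/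
noncomputable def tl (N : ℕ) (x : Sp J) : ℝ := ∑' m, ‖x (m + N)‖

lemma summable_tl (N : ℕ) (x : Sp J) : Summable fun m => ‖x (m + N)‖ := by
  have h : Summable fun n => ‖x n‖ := (hasSum_Sp x).summable
  exact (summable_nat_add_iff (f := fun n => ‖x n‖) N).mpr h

lemma norm_eq_tl (N : ℕ) (x : Sp J) : ‖x‖ = ∑ m ∈ Finset.range N, ‖x m‖ + tl N x := by
  rw [← (hasSum_Sp x).tsum_eq, tl]
  exact ((hasSum_Sp x).summable.sum_add_tsum_nat_add N).symm

lemma tl_add (N : ℕ) (x y : Sp J) : tl N (x + y) ≤ tl N x + tl N y := by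
  rw [tl, tl, tl, ← (summable_tl N x).tsum_add (summable_tl N y)]
  exact (summable_tl N (x + y)).tsum_le_tsum (fun m => norm_add_le _ _)
    ((summable_tl N x).add (summable_tl N y))

lemma tl_neg (N : ℕ) (x : Sp J) : tl N (-x) = tl N x := by
  simp [tl]

lemma exists_tl (x : Sp J) {δ : ℝ} (hδ : 0 < δ) : ∃ N, tl N x ≤ δ := by
  have h := tendsto_sum_nat_add fun m => ‖x m‖
  exact ((h.eventually (gt_mem_nhds hδ)).exists).imp fun N hN => hN.le

/-- The potential. -/
noncomputable def Phi (N : ℕ) (x : Sp J) : ℝ := ∑ m ∈ Finset.range N, ‖x m‖ ^ (ex m).toReal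

lemma Phi_clarkson (N : ℕ) (x y : Sp J) :
    Phi N (x + y) + Phi N (x - y) ≤ 2 * (Phi N x + Phi N y) := by
  simp only [Phi]
  rw [← Finset.sum_add_distrib, ← Finset.sum_add_distrib, Finset.mul_sum]
  refine Finset.sum_le_sum fun m _ => ?_
  exact clarkson (one_le_ex m) (ex_le_two m) (x m) (y m)

lemma Phi_le (N : ℕ) (x : Sp J) {C : ℝ} (hC : 1 ≤ C) (hx : ‖x‖ ≤ C) : Phi N x ≤ N * C ^ (2 : ℝ) := by
  have : ∀ m ∈ Finset.range N, ‖x m‖ ^ (ex m).toReal ≤ C ^ (2 : ℝ) := by
    intro m _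
    have h1 : ‖x m‖ ≤ C := (lp.norm_apply_le_norm one_ne_zero x m).trans hx
    calc ‖x m‖ ^ (ex m).toReal ≤ C ^ (ex m).toReal :=
          Real.rpow_le_rpow (norm_nonneg _) h1 (by linarith [one_le_ex m])
      _ ≤ C ^ (2 : ℝ) := Real.rpow_le_rpow_of_exponent_le hC (ex_le_two m)
  calc Phi N x ≤ ∑ m ∈ Finset.range N, C ^ (2 : ℝ) := Finset.sum_le_sum this
    _ = N * C ^ (2 : ℝ) := by simp

theorem no_copy (Γ : Type v) (hΓ : ℵ₀ < #Γ) : ¬ ContainsEllOne Γ (Sp J) := by
  classical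
  rintro ⟨T, c, hc, hT⟩
  have hc2 : 0 < c / 2 := by linarith
  let w : Γ → lp (fun _ : Γ => ℝ) 1 := fun γ => lp.single 1 γ (1 : ℝ)
  choose N hN using fun γ : Γ => exists_tl (T (w γ)) hc2
  obtain ⟨n, hn⟩ : ∃ n, {γ | N γ = n}.Infinite := by
    by_contra hcon
    have h1 : (⋃ n, {γ | N γ = n}).Countable :=
      Set.countable_iUnion fun n => (Set.not_infinite.mp fun h => hcon ⟨n, h⟩).countable
    have h2 : (⋃ n, {γ | N γ = n}) = Set.univ := by
      ext γ; simp
    rw [h2, Set.countable_univ_iff, ← Cardinal.mk_le_aleph0_iff] at h1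
    exact absurd hΓ (not_lt.mpr h1)
  let e : ℕ → Γ := fun k => (hn.natEmbedding _ k : {γ | N γ = n})
  have he : Function.Injective e := fun a b hab =>
    (hn.natEmbedding _).injective (Subtype.ext hab)
  have heN : ∀ k, tl n (T (w (e k))) ≤ c / 2 := by
    intro k
    have h1 : N (e k) = n := (hn.natEmbedding _ k).2
    have h2 := hN (e k)
    rwa [h1] at h2
  set C : ℝ := max 1 ‖T‖ with hC
  have hC1 : 1 ≤ C := le_max_left _ _
  have hwC : ∀ γ, ‖T (w γ)‖ ≤ C := by
    intro γ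
    refine (T.le_opNorm _).trans ?_
    rw [show ‖w γ‖ = 1 by simp [w, lp.norm_single one_pos], mul_one]
    exact le_max_right _ _
  set B : ℝ := n * C ^ (2 : ℝ) with hB
  have hB0 : 0 ≤ B := by positivity
  have main : ∀ K : ℕ, ∃ z : lp (fun _ : Γ => ℝ) 1, ‖z‖ = K ∧ (∀ k, K ≤ k → z (e k) = 0) ∧
      Phi n (T z) ≤ K * B ∧ tl n (T z) ≤ K * (c / 2) := by
    intro K
    induction K with
    | zero =>
      refine ⟨0, by simp, fun k _ => rfl, ?_, ?_⟩
      · simp only [map_zero, Nat.cast_zero, zero_mul, Phi]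
        refine le_of_eq (Finset.sum_eq_zero fun m _ => ?_)
        rw [lp.coeFn_zero, Pi.zero_apply, norm_zero, Real.zero_rpow]
        linarith [one_le_ex m]
      · simp [tl]
    | succ K ih =>
      obtain ⟨z, hz1, hz2, hz3, hz4⟩ := ih
      have hcl := Phi_clarkson n (T z) (T (w (e K)))
      have hw : Phi n (T (w (e K))) ≤ B := Phi_le n _ hC1 (hwC _)
      have hsupp : ∀ r : ℝ, |r| = 1 → ‖r • w (e K) + z‖ = ((K + 1 : ℕ) : ℝ) ∧
          ∀ k, K + 1 ≤ k → (r • w (e K) + z) (e k) = 0 := by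
        intro r hr
        constructor
        · have h := norm_single_add (p := 1) (by simp) (e K) r z (hz2 K le_rfl)
          simp only [ENNReal.toReal_one, Real.rpow_one] at h
          rw [show w (e K) = lp.single 1 (e K) (1 : ℝ) from rfl, h, hz1, hr]
          push_cast
          ring
        · intro k hk
          have hne : e k ≠ e K := fun h => by
            have := he h
            omega
          rw [lp.coeFn_add, lp.coeFn_smul, Pi.add_apply, Pi.smul_apply, hz2 k (by omega),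
            show w (e K) = lp.single 1 (e K) (1 : ℝ) from rfl, lp.single_apply_ne _ _ _ hne]
          simp
      rcases le_total (Phi n (T z + T (w (e K)))) (Phi n (T z - T (w (e K)))) with h | h
      · refine ⟨(1 : ℝ) • w (e K) + z, (hsupp 1 (by simp)).1, (hsupp 1 (by simp)).2, ?_, ?_⟩
        · rw [one_smul, map_add, add_comm]
          push_cast
          nlinarith
        · rw [one_smul, map_add]
          refine (tl_add _ _ _).trans ?_
          have := heN K
          push_cast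
          linarith
      · refine ⟨(-1 : ℝ) • w (e K) + z, (hsupp (-1) (by simp)).1, (hsupp (-1) (by simp)).2, ?_, ?_⟩
        · rw [neg_one_smul, map_add, map_neg, add_comm, ← sub_eq_add_neg]
          push_cast
          nlinarith
        · rw [neg_one_smul, map_add, map_neg]
          refine (tl_add _ _ _).trans ?_
          rw [tl_neg]
          have := heN K
          push_cast
          linarith
  have hbound : ∀ K : ℕ, c / 2 * K ≤ ∑ m ∈ Finset.range n, ((K : ℝ) * B) ^ (1 / (ex m).toReal) := by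
    intro K
    obtain ⟨z, hz1, -, hz3, hz4⟩ := main K
    have h1 := hT z
    rw [hz1, norm_eq_tl n (T z)] at h1
    have h2 : ∑ m ∈ Finset.range n, ‖T z m‖ ≤
        ∑ m ∈ Finset.range n, ((K : ℝ) * B) ^ (1 / (ex m).toReal) := by
      refine Finset.sum_le_sum fun m hm => ?_
      have hp : 0 < (ex m).toReal := by linarith [one_le_ex m]
      have h3 : ‖T z m‖ ^ (ex m).toReal ≤ K * B :=
        (Finset.single_le_sum (f := fun m => ‖T z m‖ ^ (ex m).toReal)
          (fun i _ => Real.rpow_nonneg (norm_nonneg _) _) hm).trans hz3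
      calc ‖T z m‖ = (‖T z m‖ ^ (ex m).toReal) ^ (1 / (ex m).toReal) := by
            rw [← Real.rpow_mul (norm_nonneg _), mul_one_div_cancel hp.ne', Real.rpow_one]
        _ ≤ _ := Real.rpow_le_rpow (by positivity) h3 (by positivity)
    linarith
  have hlim : Filter.Tendsto (fun K : ℕ => ∑ m ∈ Finset.range n,
      ((K : ℝ) * B) ^ (1 / (ex m).toReal) / K) Filter.atTop (nhds 0) := by
    rw [show (0 : ℝ) = ∑ m ∈ Finset.range n, (0 : ℝ) by simp]
    refine tendsto_finsetSum _ fun m _ => ?_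
    have hp : 0 < (ex m).toReal := by linarith [one_le_ex m]
    have hq : 0 < 1 - 1 / (ex m).toReal := by
      have := one_lt_ex m
      rw [sub_pos, div_lt_one hp]
      exact this
    have h1 : Filter.Tendsto (fun K : ℕ => B ^ (1 / (ex m).toReal) *
        (K : ℝ) ^ (-(1 - 1 / (ex m).toReal))) Filter.atTop (nhds 0) := by
      have := ((tendsto_rpow_neg_atTop hq).comp tendsto_natCast_atTop_atTop).const_mul
        (B ^ (1 / (ex m).toReal))
      simpa using this
    refine h1.congr' ?_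
    filter_upwards [Filter.eventually_gt_atTop 0] with K hK
    have hK' : (0 : ℝ) < K := by exact_mod_cast hK
    rw [Real.mul_rpow hK'.le hB0, show -(1 - 1 / (ex m).toReal) = 1 / (ex m).toReal - 1 by ring,
      Real.rpow_sub_one hK'.ne']
    ring
  have hfin : c / 2 ≤ 0 := by
    refine ge_of_tendsto hlim ?_
    filter_upwards [Filter.eventually_gt_atTop 0] with K hK
    have hK' : (0 : ℝ) < K := by exact_mod_cast hK
    rw [← Finset.sum_div, le_div_iff₀ hK']
    exact hbound K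
  linarith

end Sp

/-- For every infinite cardinal `κ` there is a `κ`-octahedral Banach space without a subspace isomorphic to
`ℓ₁(Γ)` for any uncountable set `Γ`; in particular for no set `Γ` of cardinality `κ⁺`. -/
theorem result.{w} (κ : Cardinal.{w}) (hκ : ℵ₀ ≤ κ) :
    ∃ (X : Type w) (_ : NormedAddCommGroup X) (_ : NormedSpace ℝ X) (_ : CompleteSpace X),
      KOctahedral κ X ∧ (∀ Γ : Type w, ℵ₀ < #Γ → ¬ ContainsEllOne Γ X) ∧
        ∀ Γ : Type w, #Γ = Order.succ κ → ¬ ContainsEllOne Γ X := by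
  refine ⟨Sp (Order.succ κ).out, inferInstance, inferInstance, inferInstance,
    octahedral κ hκ ?_, fun Γ h => no_copy Γ h, fun Γ h => no_copy Γ ?_⟩
  · rw [Cardinal.mk_out]
    exact Order.lt_succ κ
  · rw [h]
    exact hκ.trans_lt (Order.lt_succ κ)

end Pool.Agent.Results.MP_814c9d_an.NoCopyOfEllOne
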